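import Pool.Agent.H24.RCN.Targets

/-!
# Row CLS: an invariant ideal of prime order in the class group is principal
-/

set_option autoImplicit false

open NumberField Pool.Agent.H24.RCN nonZeroDivisors

namespace Pool.Agent.H17.RCN

theorem principal_of_pow_coprime {R : Type*} [CommRing R] [IsDedekindDomain R]
    (I : Ideal R) (hI : I ≠ ⊥) {m n : ℕ} (hmn : m.Coprime n)
    (hm : (I ^ m).IsPrincipal) (hn : (I ^ n).IsPrincipal) : I.IsPrincipal := by
  have hI0 : I ∈ (Ideal R)⁰ := mem_nonZeroDivisors_of_ne_zero hI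
  rw [← ClassGroup.mk0_eq_one_iff (pow_mem hI0 m)] at hm
  rw [← ClassGroup.mk0_eq_one_iff (pow_mem hI0 n)] at hn
  rw [← ClassGroup.mk0_eq_one_iff hI0]
  have h1 : (ClassGroup.mk0 ⟨I, hI0⟩) ^ m = 1 := by
    rw [← map_pow]; exact hm
  have h2 : (ClassGroup.mk0 ⟨I, hI0⟩) ^ n = 1 := by
    rw [← map_pow]; exact hn
  have h3 := pow_gcd_eq_one.2 ⟨h1, h2⟩
  rwa [hmn.gcd_eq_one, pow_one] at h3

theorem pf_CLS (h : T_MPR) : T_CLS := by
  intro F _ _ _ κ A hκ h2 hh hA hinv hpr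
  set Fp := maximalRealSubfield F with hFp
  set B := Ideal.relNorm (𝓞 Fp) A with hB
  have hB0 : B ≠ ⊥ := fun h0 => hA (Ideal.relNorm_eq_bot_iff.1 h0)
  have h1 : (B ^ κ).IsPrincipal := by
    obtain ⟨g, hg⟩ := (Submodule.isPrincipal_iff _).1 hpr
    have e : A ^ κ = Ideal.span {g} := hg
    have e2 : B ^ κ = Ideal.span {Algebra.intNorm (𝓞 Fp) (𝓞 F) g} := by
      rw [hB, ← map_pow, e, Ideal.relNorm_singleton]
    exact (Submodule.isPrincipal_iff _).2 ⟨_, e2⟩
  have h3 : (B ^ classNumber Fp).IsPrincipal := by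
    have hB1 : B ∈ (Ideal (𝓞 Fp))⁰ := mem_nonZeroDivisors_of_ne_zero hB0
    rw [← ClassGroup.mk0_eq_one_iff (pow_mem hB1 _)]
    have := pow_card_eq_one (x := ClassGroup.mk0 ⟨B, hB1⟩)
    rw [← map_pow] at this
    exact this
  have h4 : B.IsPrincipal := principal_of_pow_coprime B hB0
    ((Nat.Prime.coprime_iff_not_dvd hκ).2 hh) h1 h3
  have h5 : (A ^ 2).IsPrincipal := by
    rw [← h F A hinv]
    obtain ⟨g, hg⟩ := (Submodule.isPrincipal_iff _).1 h4
    have e : B = Ideal.span {g} := hg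
    have e3 : Ideal.map (algebraMap (𝓞 Fp) (𝓞 F)) B =
        Ideal.span {algebraMap (𝓞 Fp) (𝓞 F) g} := by
      rw [e, Ideal.map_span, Set.image_singleton]
    exact (Submodule.isPrincipal_iff _).2 ⟨_, e3⟩
  exact principal_of_pow_coprime A hA
    ((Nat.coprime_primes hκ Nat.prime_two).2 h2) hpr h5

end Pool.Agent.H17.RCN
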